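import Pool.Agent.N197.Pln.Defs
import Pool.Agent.N197.Pln.Main

/-!
# Bloch's problem for abelian covers of the projective plane

Let `f i`, `i ∈ ι`, be nonzero forms of degree `d i ≥ 1` in three variables over `ℂ` (the curves `f i = 0` may be
reducible, nonreduced and singular, they may have common components, and there may be any number of them), and let `G`
be an abelian group with elements `g i` such that `∑ i, d i • g i = 0`.  If the `f i = 0` are different integral curves and
`G` is finite and generated by the `g i`, these are the data of a normal abelian cover `X → ℙ²` with the group `G`
which is branched along the curves `f i = 0`, with inertia groups generated by the `g i`.  A character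
`χ : G → ℤ / n` gives the cyclic quotient `X / ker χ`, which is birational to the surface

`z ^ n = ∏ i, f i (x, y, 1) ^ χ (g i)`,

and by Pardini `H⁰ (X, ω_X)` is the sum over the characters `χ` of the `H⁰ (ℙ², O(L χ - 3))` with
`L χ = ∑ i, d i * (χ (g i) / n)`, the values of `χ` being represented in `{0, ..., n - 1}`.  So `H⁰ (X, ω_X) = 0` (which is
`p_g = 0` if `X` is smooth or has rational singularities) means that `L χ ≤ 2` for all `χ`.

Theorem: in this case all the surfaces `z ^ n = ∏ i, f i (x, y, 1) ^ χ (g i)` are dominated by products of two curves.

Since the motive of `X` with rational coefficients is the sum of its parts for the characters of `G`, and the part of a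
character `χ` is a direct summand of the motive of `X / ker χ`, and since for surfaces with `p_g = 0` which are dominated
by products of curves the group `B(X)` is finite-dimensional, this is the problem of Bloch for all the abelian
covers of the plane (the facts of this paragraph are known and not formalised here).

Proof. From `L χ + L (-χ) ≤ 4` one sees that the curves with `χ (g i) ≠ 0` have total degree at most four.  If two of them
meet, or if there is only one, of degree at most three or with a singular point, the lines through a suitable point of
the branch curves give a pencil on the surface whose members are cyclic covers of the line branched in at most three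
points, and they can be moved to a standard position.  There remain the smooth quartics `C`, with `n = 2 χ (g i)`; in this
case the members of the family of the tangent lines of `C`, with the parameter curve `C`, are used, on which the
function has only two points of odd order.
-/

namespace Pool.Agent.Results.MP_7ebcb6_ag.AbelianPlaneCovers

open Pool.Agent.N197.Pln

/-- all the character pieces of an abelian cover of the plane with `H⁰ (X, ω_X) = 0` are dominated by products of
two curves -/
theorem result {ι : Type} [Fintype ι] {f : ι → MvPolynomial (Fin 3) ℂ} {d : ι → ℕ}
    (hf : ∀ i, IsPlaneCurve (f i) (d i)) {G : Type} [AddCommGroup G] (g : ι → G)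
    (hg : ∑ i, d i • g i = 0)
    (hpg : ∀ (n : ℕ) [NeZero n] (χ : G →+ ZMod n), lineDegree n d (fun i => χ (g i)) ≤ 2)
    (n : ℕ) [NeZero n] (χ : G →+ ZMod n) : DominatedByCurves n f (fun i => χ (g i)) :=
  abelian_plane_covers hf g hg hpg n χ

end Pool.Agent.Results.MP_7ebcb6_ag.AbelianPlaneCovers
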