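import Pool.Agent.U935.BA.Rigid

/-!
# Bloch's conjecture and groups of birational automorphisms

A variety `T` over `ℂ` is given by its function field `K`, and `Ω ⊇ ℂ` is algebraically closed.  The
`ℂ`-embeddings `σ : K → Ω` are the generic points of `T_Ω`, and a zero-cycle `c ∈ (K → Ω) →₀ ℤ` is a
cycle on `T_Ω` away from the proper closed subsets of `T`.  `Rat K Ω` is the group of the cycles which are
rationally equivalent to a cycle supported on `D_Ω`, for a proper closed subset `D` of `T`.  So
`BlochHolds Ω K` says that `CH_0 (T_Ω) ⊗ ℚ` is supported on proper closed subsets of `T`.

If `T` is a surface and `Ω` has transcendence degree at least two, then one may take for `c` the generic point of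
`T`, and so `BlochHolds Ω K` is the condition of Bloch and Srinivas: it is equivalent to `d(T) = 0`, the
conclusion of Q1, for each smooth projective model `T` of `K` (this is known, and not proved here).  The condition
`GenusZero 2 K` is `p_g (T) = 0`.

The theorem has four parts.

* The property is inherited by the images under dominant rational maps of finite degree, and it holds for the
  varieties which are images of ruled varieties.

* Let `G` be a finite group of `ℂ`-automorphisms of `K`, which is a finite group of birational automorphisms of
  `T`; `quotientField a H` is the function field of `T / H` for a subgroup `H` of `G`.  A family `D i` of subgroups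
  dominates `H` if for each irreducible rational representation of `G` with a nonzero vector fixed by `H` there is
  an `i` and a nonzero vector fixed by `D i`.  In this case the property for all the quotients `T / D i` implies the
  property for `T / H`, for example if all the `T / D i` are uniruled.  This applies (with `H = 1`) to the quotients
  by an involution `c` and by the subgroup generated by the commutators with `c` (and to the quotient by `c` alone, if `c`
  lies in this subgroup), to the members of a partition of a subgroup, and, if `G` has no fixed point free
  irreducible rational representation (if it is not a Frobenius complement), to the subgroups of prime order: if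
  all the `T / P` with `P` of prime order are uniruled, then `T` has the property.  So Q1 is answered positively for
  surfaces with such a group of symmetries.  Conversely, if `T` does not have the property, but all
  quotients by subgroups of prime order have it, then `G` has a fixed point free irreducible rational representation,
  the subgroups of order `p q` and the commutative subgroups are cyclic, there is at
  most one involution, and different elements of `G` act differently on the zero-cycles modulo `Rat` and torsion.

* Varieties all of whose proper images have the property.  Suppose that all the images of `T` under dominant rational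
  maps of finite degree greater than one have the property.  Then `T` has it, or else `RigidSymmetries K` holds: each
  finite group of birational automorphisms of `T` is of the type above, and if `T` is the quotient by the subgroup `H`
  of a variety on which the finite group `Γ` acts, then `Γ` has an irreducible rational representation with a nonzero
  vector fixed by `H` and without nonzero vectors fixed by larger subgroups.  The last assertion is a condition for all
  rational maps `T → Y` of finite degree, where `Γ` is the monodromy group and `H` the stabilizer of a point of the
  fibre.

  For a minimal surface `X` of general type with `p_g = 0` and `K_X ^ 2 = 1` (a numerical Godeaux surface) the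
  hypothesis is satisfied: if `X → Y` is a dominant rational map of degree `d > 1`, then `Y` is not of general type
  since `d vol (K_Y) ≤ vol (K_X) = 1`, and by Bloch, Kas and Lieberman `Y` has the property (these facts are known
  and not proved here).  So Q1 is answered positively for all numerical Godeaux surfaces with two involutions, or with a
  commutative group of automorphisms which is not cyclic, or with a group of automorphisms of order `p q` which is not
  cyclic.

* The minimal counterexample.  Assume that `p_g (T) = 0`, that `T` does not have the property, and that the degrees of
  the dominant rational maps of finite degree from `T` to varieties without the property are bounded.  Then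
  there is a dominant rational map of finite degree `T → W` with `p_g (W) = 0` such that `W` does not have the
  property, all the varieties which are images of `W` under dominant rational maps of finite degree greater than one
  have it, and so `RigidSymmetries` holds for `W`.

For surfaces the degrees are bounded: surfaces with `p_g = 0` which are not of general type have the property by
Bloch, Kas and Lieberman, and a dominant rational map of degree `d` from `T` to a surface of general type satisfies
`d ≤ vol (K_T)`.  So if the answer to Q1 is negative, then there is a surface of general type with `p_g = q = 0`
which is a counterexample, for which all images under dominant rational maps of degree greater than one satisfy the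
conjecture, and whose group of birational automorphisms, which is finite, is a Frobenius complement with the
properties above.

The proof.  The group ring `ℚ[G]` acts on `CH_0 ⊗ ℚ`; by the pull back of rational equivalences to coverings
(`U1.BL.rat_pull`) the norm elements of the subgroups `D i` annihilate it, and the annihilator is a two-sided ideal,
which contains the norm element of `H` if the `D i` dominate `H` (`X252.GA`).
-/

set_option autoImplicit false

open Pool.Agent.U935.BA Pool.Agent.N162.BC Pool.Agent.X252.GA Pool.Agent.X310.Mu

namespace Pool.Agent.Results.MP_7ebcb6_ag.AutomorphismGroups

/-- Transfer of the conclusion of Bloch's conjecture between the quotients of a variety by finite groups, and the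
symmetries of a minimal counterexample. -/
theorem result (K Ω : Type) [Field K] [Algebra ℂ K] [Field Ω] [Algebra ℂ Ω] [IsAlgClosed Ω] :
    -- images, and uniruled varieties
    (∀ L : IntermediateField ℂ K, FiniteDimensional L K → BlochHolds Ω K → BlochHolds Ω L) ∧
    (IsUniruled K → BlochHolds Ω K) ∧
    -- finite groups of birational automorphisms
    (∀ (G : Type) [Group G] [Finite G] (a : G →* (K ≃ₐ[ℂ] K)), Function.Injective a →
      (∀ (ι : Type) (H : Subgroup G) (D : ι → Subgroup G), Dominated H D →
        (∀ i, BlochHolds Ω (quotientField a (D i))) → BlochHolds Ω (quotientField a H)) ∧
      (∀ (ι : Type) (D : ι → Subgroup G), Dominated (⊥ : Subgroup G) D →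
        (∀ i, BlochHolds Ω (quotientField a (D i))) → BlochHolds Ω K) ∧
      (∀ c : G, c * c = 1 → BlochHolds Ω (quotientField a (Subgroup.zpowers c)) →
        (c ∈ comms c ∨ BlochHolds Ω (quotientField a (comms c))) → BlochHolds Ω K) ∧
      (∀ (ι : Type) [Finite ι] (D : ι → Subgroup G) (H : Subgroup G), 2 ≤ Nat.card ι →
        (∀ i, D i ≤ H) → (∀ h ∈ H, h ≠ 1 → ∃! i, h ∈ D i) →
        (∀ i, BlochHolds Ω (quotientField a (D i))) → BlochHolds Ω K) ∧
      (¬ FixedPointFree G →
        (∀ P : Subgroup G, (Nat.card P).Prime → IsUniruled (quotientField a P)) →
        BlochHolds Ω K) ∧
      (¬ BlochHolds Ω K →
        (∀ P : Subgroup G, (Nat.card P).Prime → BlochHolds Ω (quotientField a P)) →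
        FixedPointFree G ∧ CyclicSubgroups G ∧
        ∀ g g' : G, (∀ c : (K →ₐ[ℂ] Ω) →₀ ℤ, ∃ k : ℕ, k ≠ 0 ∧
          k • (Finsupp.mapDomain (fun σ : K →ₐ[ℂ] Ω => σ.comp ((a g).symm : K →ₐ[ℂ] K)) c -
            Finsupp.mapDomain (fun σ : K →ₐ[ℂ] Ω => σ.comp ((a g').symm : K →ₐ[ℂ] K)) c) ∈
              Rat K Ω) → g = g')) ∧
    -- varieties all of whose proper images have the property
    ((∀ F : IntermediateField ℂ K, FiniteDimensional F K → F ≠ ⊤ → BlochHolds Ω F) →
      BlochHolds Ω K ∨ RigidSymmetries K) ∧
    -- the minimal counterexample
    (∀ [Algebra.EssFiniteType ℂ K] (n : ℕ), Algebra.trdeg ℂ K = n → GenusZero n K →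
      ¬ BlochHolds Ω K →
      ∀ N : ℕ, (∀ L : IntermediateField ℂ K, FiniteDimensional L K → ¬ BlochHolds Ω L →
        Module.finrank L K ≤ N) →
      ∃ L : IntermediateField ℂ K, FiniteDimensional L K ∧ GenusZero n L ∧ ¬ BlochHolds Ω L ∧
        (∀ F : IntermediateField ℂ L, FiniteDimensional F L → F ≠ ⊤ → BlochHolds Ω F) ∧
        RigidSymmetries L) := by
  refine ⟨fun L hL h => h.down L K, bloch_of_uniruled, fun G _ _ a ha =>
    ⟨fun ι H D hD h => bloch_of_dominated_quot a ha H D hD h,
      fun ι D hD h => bloch_of_dominated a ha D hD h, ?_, ?_, ?_, ?_⟩, ?_, ?_⟩
  · rintro c hc h1 (h2 | h2)
    · exact bloch_of_dominated a ha _ (dominated_comms hc h2 ⊥) fun _ => h1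
    · refine bloch_of_dominated a ha _ (dominated_two hc ⊥) fun i => ?_
      cases i
      · exact h2
      · exact h1
  · intro ι _ D H hι hle hpart h
    have := Fintype.ofFinite G
    exact bloch_of_dominated a ha D (dominated_partition D H hι hle hpart ⊥) h
  · intro hG h
    by_contra hne
    exact hG (structure_of_failure a ha hne fun P hP => bloch_of_uniruled (h P hP)).1
  · intro hne h
    obtain ⟨h1, h2⟩ := structure_of_failure a ha hne h
    exact ⟨h1, h2, fun g g' hg => faithful_of_failure a ha hne h g g' hg⟩
  · intro hmin
    by_cases h0 : BlochHolds Ω K
    · exact Or.inl h0
    · exact Or.inr (rigid_of_minimal h0 hmin)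
  · intro _ n hn hpg h0 N hN
    obtain ⟨L, h1, h2, h3⟩ := exists_minimal h0 N hN
    have hess : Algebra.EssFiniteType ℂ L := ess_below (K := K)
    have htr : Algebra.trdeg ℂ L = n := by
      rw [← hn]
      have h4 : Algebra.IsAlgebraic L K := inferInstance
      exact Pool.Agent.U935.BA.trdeg_down
    exact ⟨L, h1, hpg.down (K := K) htr, h2, h3, rigid_of_minimal h2 h3⟩

end Pool.Agent.Results.MP_7ebcb6_ag.AutomorphismGroups
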