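import Pool.Agent.U158.Hirz.Conic

/-!
# Bloch's problem for abelian covers of the Hirzebruch surfaces

Let `F_e`, `e ≥ 1`, be the Hirzebruch surface with the negative section `σ`, `σ² = -e`, and the fibre `φ`.
A normal abelian cover `X` of `F_e` with the group `G`, branched along `σ` and along curves
`D i ∼ d i σ + b i φ`, is given by elements `g i` and `g_σ` of `G` with `∑ i, b i • g i = 0` and
`g_σ = - ∑ i, d i • g i`.  A character `χ` of `G` of order dividing `n` gives the residues `a i = χ (g i)`,
and the cyclic quotient `Y = X / ker χ` is the surface `z ^ n = ∏ i, f i (x, y) ^ a i`, where `x` is the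
coordinate of the fibres (with the pole `σ`) and `y` is the coordinate of the base.  By Pardini `H⁰ (Y, ω_Y)`
is the sum over `k` of the `H⁰ ((α k - 2) σ + (β k - 2 - e) φ)`, with `α k = fibreDegree` and
`β k = lineDegree` of the character `k χ`; so `H² (Y, O_Y) = 0` means that `α k ≤ 1` or `β k ≤ e + 1` for
all `k`.

Theorem: in this case the surface `z ^ n = ∏ i, f i (x, y) ^ a i` is dominated by a product of two curves,
or `e = 2`, `σ` is a branch curve and `Y` is a double cover, with the other branch curves `∼ 3 σ + 6 φ`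
(a double cover of the quadric cone branched along the vertex and the section by a cubic surface; if it has
only rational double points, then it is a del Pezzo surface of degree one, so rational).

Proof.  Let `A` and `B` be the intersection numbers of the branch curve of `Y` with `φ`, and with
`σ + e φ`, so `α 1 + α (-1) = A` and `β 1 + β (-1) = B`.  If `A ≤ 3`, the fibres are cyclic covers of `P¹`
with at most three branch points.  Let `A ≥ 4`.  If `β 1 > e + 1`, then `α 1 ≤ 1`, `α (-1) ≥ 3`, hence
`β (-1) ≤ e + 1`; but `b i ≥ e d i` gives `β (-1) ≥ e (α (-1) - u)` with `u < 1`, a contradiction.  So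
`β 1, β (-1) ≤ e + 1` and `e (A - 1) ≤ B ≤ 2 (e + 1)`.  If `e = 1`, then `σ` can be contracted and
`Y` is a cyclic cover of the plane with `β 1, β (-1) ≤ 2`.  Otherwise `e = 2`, `A = 4` and `B = 6`; then
`k = 2` gives a branch curve of order two, and `Y` is a double cover or there are three branch curves besides
`σ`, which are sections with the residues `r`, `n / 2`, `n - r`.  The pencil spanned by the first and the
third of them makes `Y` a bundle of conics.
-/

namespace Pool.Agent.Results.MP_7ebcb6_ag.HirzebruchCovers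

open Pool.Agent.N197.Pln MvPolynomial Pool.Agent.U158.Hirz

/-- The polynomial `f` in the fibre coordinate `x = X 0` and the base coordinate `y = X 1` is the
equation of a curve `D ∼ d σ + b φ` on the Hirzebruch surface `F_e` without the component `σ`:
`b > 0`, `b ≥ e d`, the degree in `x` is `d`, and `k + e j ≤ b` for the monomials `x ^ j y ^ k` of `f`. -/
structure IsHirzebruchCurve (e : ℕ) (f : MvPolynomial (Fin 2) ℂ) (d b : ℕ) : Prop where
  pos : 0 < b
  le : e * d ≤ b
  fst_le : ∀ m ∈ f.support, m 0 ≤ d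
  fst_eq : ∃ m ∈ f.support, m 0 = d
  snd_le : ∀ m ∈ f.support, m 1 + e * m 0 ≤ b

theorem IsHirzebruchCurve.ne_zero {e : ℕ} {f : MvPolynomial (Fin 2) ℂ} {d b : ℕ}
    (h : IsHirzebruchCurve e f d b) : f ≠ 0 := by
  rintro rfl
  obtain ⟨m, hm, _⟩ := h.fst_eq
  simp at hm

/-- the degree `∑ i, d i * (a i / n) + a_σ / n` of the eigensheaf on the fibres, where
`a_σ = - ∑ i, d i a i` -/
def fibreDegree {ι : Type} [Fintype ι] (n : ℕ) (d : ι → ℕ) (a : ι → ZMod n) : ℚ :=
  lineDegree n d a + ((-∑ i, d i • a i : ZMod n).val : ℚ) / (n : ℚ)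

section aux

variable {ι : Type} [Fintype ι] {n : ℕ} [NeZero n]

/-- the data with the negative section added -/
def dO (d : ι → ℕ) : Option ι → ℕ := fun o => o.elim 1 d

/-- the data with the negative section added -/
def aO (d : ι → ℕ) (a : ι → ZMod n) : Option ι → ZMod n := fun o => o.elim (-∑ i, d i • a i) a

theorem fibreDegree_eq (d : ι → ℕ) (a : ι → ZMod n) :
    fibreDegree n d a = lineDegree n (dO d) (aO d a) := by
  unfold fibreDegree lineDegree
  rw [Fintype.sum_option, add_comm]
  congr 1
  simp [dO, aO]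

omit [NeZero n] in
theorem aO_neg (d : ι → ℕ) (a : ι → ZMod n) :
    aO d (fun i => -(a i)) = fun o => -(aO d a o) := by
  funext o
  cases o with
  | none => simp [aO]
  | some i => simp [aO]

theorem lineDegree_mul_le {e : ℕ} {d b : ι → ℕ} (h : ∀ i, e * d i ≤ b i) (a : ι → ZMod n) :
    e * lineDegree n d a ≤ lineDegree n b a := by
  unfold lineDegree
  rw [Finset.mul_sum]
  apply Finset.sum_le_sum
  intro i _
  have hn : (0 : ℚ) < n := Nat.cast_pos.mpr (Nat.pos_of_ne_zero (NeZero.ne n))
  have h1 : (e : ℚ) * d i ≤ b i := by exact_mod_cast h i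
  rw [← mul_div_assoc, ← mul_assoc]
  apply div_le_div_of_nonneg_right _ hn.le
  exact mul_le_mul_of_nonneg_right h1 (Nat.cast_nonneg _)

theorem fibreDegree_lt (d : ι → ℕ) (a : ι → ZMod n) :
    fibreDegree n d a < lineDegree n d a + 1 := by
  unfold fibreDegree
  have hn : (0 : ℚ) < n := Nat.cast_pos.mpr (Nat.pos_of_ne_zero (NeZero.ne n))
  have h1 : ((-∑ i, d i • a i : ZMod n).val : ℚ) < n := by exact_mod_cast ZMod.val_lt _
  have h2 : ((-∑ i, d i • a i : ZMod n).val : ℚ) / (n : ℚ) < 1 := by
    rw [div_lt_one hn]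
    exact h1
  linarith

/-- the first half of the numerical part -/
theorem no_big {e : ℕ} (he : 1 ≤ e) {d b : ι → ℕ} (h : ∀ i, e * d i ≤ b i) {a : ι → ZMod n}
    (h1 : fibreDegree n d a ≤ 1 ∨ lineDegree n b a ≤ e + 1)
    (h2 : fibreDegree n d (fun i => -(a i)) ≤ 1 ∨ lineDegree n b (fun i => -(a i)) ≤ e + 1)
    (hA : 4 ≤ fibreDegree n d a + fibreDegree n d (fun i => -(a i))) :
    lineDegree n b a ≤ e + 1 := by
  by_contra hcon
  have h3 : fibreDegree n d a ≤ 1 := h1.resolve_right hcon
  have h4 : (3 : ℚ) ≤ fibreDegree n d (fun i => -(a i)) := by linarith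
  have h5 : lineDegree n b (fun i => -(a i)) ≤ e + 1 := h2.resolve_left (by linarith)
  have h6 := lineDegree_mul_le h (fun i => -(a i))
  have h7 := fibreDegree_lt d (fun i => -(a i))
  have he' : (1 : ℚ) ≤ e := by exact_mod_cast he
  nlinarith

end aux

/-- the form of degree `b` in three variables which becomes `f` if the third variable is `1` -/
noncomputable def homog (f : MvPolynomial (Fin 2) ℂ) (b : ℕ) : MvPolynomial (Fin 3) ℂ :=
  ∑ m ∈ f.support, C (coeff m f) * (X 0 ^ m 0 * X 1 ^ m 1 * X 2 ^ (b - m 0 - m 1))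

theorem aeval_homog {Ω : Type} [Field Ω] [Algebra ℂ Ω] (f : MvPolynomial (Fin 2) ℂ) (b : ℕ)
    (x y : Ω) : aeval ![x, y, 1] (homog f b) = aeval ![x, y] f := by
  unfold homog
  rw [map_sum, aeval_def (f := ![x, y]), eval₂_eq']
  apply Finset.sum_congr rfl
  intro m _
  simp [Fin.prod_univ_two]

theorem isPlaneCurve_homog {f : MvPolynomial (Fin 2) ℂ} {d b : ℕ} (h : IsHirzebruchCurve 1 f d b) :
    IsPlaneCurve (homog f b) b := by
  refine ⟨h.pos, ?_, ?_⟩
  · unfold homog
    apply IsHomogeneous.sum
    intro m hm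
    have h1 := h.snd_le m hm
    have h2 : 0 + (1 * m 0 + 1 * m 1 + 1 * (b - m 0 - m 1)) = b := by omega
    have h3 : (C (coeff m f) * (X 0 ^ m 0 * X 1 ^ m 1 * X 2 ^ (b - m 0 - m 1)) :
        MvPolynomial (Fin 3) ℂ).IsHomogeneous (0 + (1 * m 0 + 1 * m 1 + 1 * (b - m 0 - m 1))) :=
      (isHomogeneous_C _ _).mul ((((isHomogeneous_X _ _).pow _).mul
        ((isHomogeneous_X _ _).pow _)).mul ((isHomogeneous_X _ _).pow _))
    rwa [h2] at h3
  · intro h0
    obtain ⟨Ω, _, _, _, s, t, hst⟩ := exists_field
    have h1 := aeval_homog f b s t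
    rw [h0, map_zero] at h1
    exact h.ne_zero (hst (by rw [← h1, map_zero]))

theorem isSection_of {f : MvPolynomial (Fin 2) ℂ} {d b : ℕ} (h : IsHirzebruchCurve 2 f d b)
    (hd : d = 1) (hb : b = 2) : ∃ c q₀ q₁ q₂, IsSection f c q₀ q₁ q₂ := by
  subst hd hb
  have hcases : ∀ m ∈ f.support, m = Finsupp.single 0 1 ∨ m = 0 ∨ m = Finsupp.single 1 1 ∨
      m = Finsupp.single 1 2 := by
    intro m hm
    have h1 := h.fst_le m hm
    have h2 := h.snd_le m hm
    have h3 : (m 0 = 1 ∧ m 1 = 0) ∨ (m 0 = 0 ∧ m 1 = 0) ∨ (m 0 = 0 ∧ m 1 = 1) ∨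
        (m 0 = 0 ∧ m 1 = 2) := by omega
    rcases h3 with h3 | h3 | h3 | h3
    · left
      ext k
      fin_cases k <;> simp [h3.1, h3.2]
    · right; left
      ext k
      fin_cases k <;> simp [h3.1, h3.2]
    · right; right; left
      ext k
      fin_cases k <;> simp [h3.1, h3.2]
    · right; right; right
      ext k
      fin_cases k <;> simp [h3.1, h3.2]
  refine ⟨coeff (Finsupp.single 0 1) f, coeff 0 f, coeff (Finsupp.single 1 1) f,
    coeff (Finsupp.single 1 2) f, ?_, ?_⟩
  · obtain ⟨m, hm, hm1⟩ := h.fst_eq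
    rcases hcases m hm with h4 | h4 | h4 | h4
    · rw [← h4]
      exact mem_support_iff.mp hm
    · rw [h4] at hm1
      simp at hm1
    · rw [h4] at hm1
      simp at hm1
    · rw [h4] at hm1
      simp at hm1
  · have e1 : (C (coeff (Finsupp.single 0 1) f) * X 0 : MvPolynomial (Fin 2) ℂ) =
        monomial (Finsupp.single 0 1) (coeff (Finsupp.single 0 1) f) := by
      rw [← pow_one (X 0), C_mul_X_pow_eq_monomial]
    have e2 : (C (coeff (Finsupp.single 1 1) f) * X 1 : MvPolynomial (Fin 2) ℂ) =
        monomial (Finsupp.single 1 1) (coeff (Finsupp.single 1 1) f) := by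
      rw [← pow_one (X 1), C_mul_X_pow_eq_monomial]
    have e3 : (C (coeff 0 f) : MvPolynomial (Fin 2) ℂ) = monomial 0 (coeff 0 f) := rfl
    rw [e1, e2, e3, C_mul_X_pow_eq_monomial]
    have n1 : (Finsupp.single 0 1 : Fin 2 →₀ ℕ) ≠ 0 := by
      intro h
      have := DFunLike.congr_fun h 0
      simp at this
    have n2 : (Finsupp.single 0 1 : Fin 2 →₀ ℕ) ≠ Finsupp.single 1 1 := by
      intro h
      have := DFunLike.congr_fun h 0
      simp at this
    have n3 : (Finsupp.single 0 1 : Fin 2 →₀ ℕ) ≠ Finsupp.single 1 2 := by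
      intro h
      have := DFunLike.congr_fun h 0
      simp at this
    have n4 : (0 : Fin 2 →₀ ℕ) ≠ Finsupp.single 1 1 := by
      intro h
      have := DFunLike.congr_fun h 1
      simp at this
    have n5 : (0 : Fin 2 →₀ ℕ) ≠ Finsupp.single 1 2 := by
      intro h
      have := DFunLike.congr_fun h 1
      simp at this
    have n6 : (Finsupp.single 1 1 : Fin 2 →₀ ℕ) ≠ Finsupp.single 1 2 := by
      intro h
      have := DFunLike.congr_fun h 1
      simp at this
    apply MvPolynomial.ext
    intro m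
    simp only [coeff_add, coeff_monomial]
    by_cases hm : m ∈ f.support
    · rcases hcases m hm with h4 | h4 | h4 | h4
      · rw [h4, if_pos rfl, if_neg n1.symm, if_neg n2.symm, if_neg n3.symm]
        ring
      · rw [h4, if_neg n1, if_pos rfl, if_neg n4.symm, if_neg n5.symm]
        ring
      · rw [h4, if_neg n2, if_neg n4, if_pos rfl, if_neg n6.symm]
        ring
      · rw [h4, if_neg n3, if_neg n5, if_neg n6, if_pos rfl]
        ring
    · have h0 : coeff m f = 0 := notMem_support_iff.mp hm
      have hz : ∀ k : Fin 2 →₀ ℕ, (if k = m then coeff k f else 0) = 0 := by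
        intro k
        split_ifs with hk
        · rw [hk, h0]
        · rfl
      rw [hz, hz, hz, hz, h0]
      ring

section exceptional

variable {ι : Type} [Fintype ι] {n : ℕ} [NeZero n]

theorem lineDegree_eq_sum (d : ι → ℕ) (a : ι → ZMod n) :
    lineDegree n d a * n = ((∑ i, d i * (a i).val : ℕ) : ℚ) := by
  have hn : (n : ℚ) ≠ 0 := Nat.cast_ne_zero.mpr (NeZero.ne n)
  unfold lineDegree
  rw [Finset.sum_mul, Nat.cast_sum]
  apply Finset.sum_congr rfl
  intro i _
  rw [div_mul_cancel₀ _ hn, Nat.cast_mul]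

omit [NeZero n] in
theorem lineDegree_le_fibreDegree (d : ι → ℕ) (a : ι → ZMod n) :
    lineDegree n d a ≤ fibreDegree n d a := by
  unfold fibreDegree
  have : (0 : ℚ) ≤ ((-∑ i, d i • a i : ZMod n).val : ℚ) / (n : ℚ) := by positivity
  linarith

/-- the case `e = 2`, `A = 4`, `B = 6` -/
theorem exceptional {f : ι → MvPolynomial (Fin 2) ℂ} {d b : ι → ℕ}
    (hf : ∀ i, IsHirzebruchCurve 2 (f i) (d i) (b i)) {a : ι → ZMod n}
    (hSd : ∑ i ∈ Finset.univ.filter (fun i => a i ≠ 0), d i = 3)
    (hSb : ∑ i ∈ Finset.univ.filter (fun i => a i ≠ 0), b i = 6)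
    (h1 : lineDegree n b a ≤ 3) (h2 : lineDegree n b (fun i => -(a i)) ≤ 3)
    (hpg : ∀ k : ℤ, fibreDegree n d (fun i => k • a i) ≤ 1 ∨
      lineDegree n b (fun i => k • a i) ≤ 3) :
    AffineDominatedByCurves n f a ∨ ∀ i, 2 • a i = 0 := by
  classical
  have hn0 : n ≠ 0 := NeZero.ne n
  have hn : (0 : ℚ) < n := Nat.cast_pos.mpr (Nat.pos_of_ne_zero hn0)
  set S : Finset ι := Finset.univ.filter (fun i => a i ≠ 0) with hS
  have hSmem : ∀ i, i ∉ S → a i = 0 := by
    intro i hi
    by_contra h
    exact hi (Finset.mem_filter.mpr ⟨Finset.mem_univ _, h⟩)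
  have hbd : ∀ i ∈ S, 2 * d i = b i := by
    apply (Finset.sum_eq_sum_iff_of_le (fun i _ => (hf i).le)).mp
    rw [← Finset.mul_sum, hSd, hSb]
    norm_num
  have hd1 : ∀ i ∈ S, 1 ≤ d i := by
    intro i hi
    have := hbd i hi
    have := (hf i).pos
    omega
  -- `b` is twice `d`
  have htwice : ∀ a' : ι → ZMod n, (∀ i, i ∉ S → a' i = 0) →
      lineDegree n b a' = 2 * lineDegree n d a' := by
    intro a' ha'
    unfold lineDegree
    rw [Finset.mul_sum]
    apply Finset.sum_congr rfl
    intro i _
    by_cases hi : i ∈ S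
    · rw [← hbd i hi]
      push_cast
      ring
    · rw [ha' i hi, ZMod.val_zero]
      ring
  have hB := lineDegree_add_neg b a
  rw [← hS, hSb] at hB
  have hβ : lineDegree n b a = 3 := by
    push_cast at hB
    linarith
  have hα : lineDegree n d a = 3 / 2 := by
    have := htwice a hSmem
    linarith
  have hsum : 2 * ∑ i, d i * (a i).val = 3 * n := by
    have h3 := lineDegree_eq_sum d a
    rw [hα] at h3
    have h4 : ((2 * ∑ i, d i * (a i).val : ℕ) : ℚ) = ((3 * n : ℕ) : ℚ) := by
      rw [Nat.cast_mul, ← h3]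
      push_cast
      ring
    exact_mod_cast h4
  have hsumS : 2 * ∑ i ∈ S, d i * (a i).val = 3 * n := by
    rw [← hsum]
    congr 1
    apply Finset.sum_subset (Finset.subset_univ S)
    intro i _ hi
    rw [hSmem i hi, ZMod.val_zero, mul_zero]
  have hsum2 : ∑ i, d i • (2 • a i) = 0 := by
    have h3 := congrArg (fun k : ℕ => (k : ZMod n)) hsum
    simp only [Nat.cast_mul, Nat.cast_sum, ZMod.natCast_val, ZMod.cast_id', id_eq,
      CharP.cast_eq_zero, mul_zero] at h3
    rw [← h3, Finset.mul_sum]
    apply Finset.sum_congr rfl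
    intro i _
    simp only [nsmul_eq_mul]
    push_cast
    ring
  -- a branch curve of order two
  have hex : ∃ i ∈ S, 2 • a i = 0 := by
    by_contra hcon
    push Not at hcon
    have hfil : Finset.univ.filter (fun i => 2 • a i ≠ 0) = S := by
      ext i
      rw [Finset.mem_filter]
      constructor
      · rintro ⟨_, hi⟩
        by_contra h
        apply hi
        rw [hSmem i h, smul_zero]
      · intro hi
        exact ⟨Finset.mem_univ _, hcon i hi⟩
    have h3 := lineDegree_add_neg d (fun i => 2 • a i)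
    rw [hfil, hSd] at h3
    obtain ⟨m, hm⟩ := sum_val hsum2
    have hm' := lineDegree_eq_sum d (fun i => 2 • a i)
    rw [hm, Nat.cast_mul] at hm'
    have hm2 : lineDegree n d (fun i => 2 • a i) = m := by
      have h4 : (lineDegree n d (fun i => 2 • a i) - m) * n = 0 := by
        linear_combination hm'
      rcases mul_eq_zero.mp h4 with h5 | h5
      · linarith
      · exact absurd h5 hn.ne'
    have hge : (2 : ℚ) ≤ lineDegree n d (fun i => 2 • a i) ∨
        (2 : ℚ) ≤ lineDegree n d (fun i => -(2 • a i)) := by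
      rcases Nat.lt_or_ge m 2 with h5 | h5
      · right
        have h6 : (m : ℚ) ≤ 1 := by exact_mod_cast (by omega : m ≤ 1)
        push_cast at h3
        linarith
      · left
        rw [hm2]
        exact_mod_cast h5
    have hk1 : (fun i => (2 : ℤ) • a i) = fun i => 2 • a i := by
      funext i
      exact ofNat_zsmul (a i) 2
    have hk2 : (fun i => (-2 : ℤ) • a i) = fun i => -(2 • a i) := by
      funext i
      rw [neg_smul, ofNat_zsmul]
    rcases hge with h5 | h5
    · have h6 := hpg 2
      rw [hk1, htwice _ (fun i hi => by rw [hSmem i hi, smul_zero])] at h6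
      have h7 := lineDegree_le_fibreDegree d (fun i => 2 • a i)
      rcases h6 with h6 | h6 <;> linarith
    · have h6 := hpg (-2)
      rw [hk2, htwice _ (fun i hi => by rw [hSmem i hi, smul_zero, neg_zero])] at h6
      have h7 := lineDegree_le_fibreDegree d (fun i => -(2 • a i))
      rcases h6 with h6 | h6 <;> linarith
  obtain ⟨i, hi, hi2⟩ := hex
  -- `2 • x = 0` in terms of the representative
  have hval : ∀ x : ZMod n, x ≠ 0 → 2 • x = 0 → 2 * x.val = n := by
    intro x hx hx2
    have h3 : ((2 * x.val : ℕ) : ZMod n) = 0 := by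
      rw [Nat.cast_mul, ZMod.natCast_val, ZMod.cast_id', id_eq, ← hx2, nsmul_eq_mul]
    obtain ⟨q, hq⟩ := (ZMod.natCast_eq_zero_iff _ _).mp h3
    have h4 : x.val < n := ZMod.val_lt x
    have h5 : 0 < x.val := Nat.pos_of_ne_zero (by rwa [Ne, ZMod.val_eq_zero])
    have h6 : q = 1 := by
      rcases Nat.lt_or_ge q 1 with h | h
      · have : q = 0 := by omega
        rw [this] at hq
        omega
      · rcases Nat.lt_or_ge q 2 with h' | h'
        · omega
        · have : n * 2 ≤ n * q := Nat.mul_le_mul_left n h'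
          omega
    rw [hq, h6, mul_one]
  have hval' : ∀ x : ZMod n, 2 * x.val = n → 2 • x = 0 := by
    intro x hx
    have h3 : ((2 * x.val : ℕ) : ZMod n) = 0 := by rw [hx, ZMod.natCast_self]
    rw [Nat.cast_mul, ZMod.natCast_val, ZMod.cast_id', id_eq] at h3
    rw [nsmul_eq_mul]
    exact h3
  have hai : a i ≠ 0 := (Finset.mem_filter.mp hi).2
  have hvi := hval (a i) hai hi2
  have e1 := Finset.add_sum_erase S d hi
  have e2 := Finset.add_sum_erase S (fun k => d k * (a k).val) hi
  have hcard : (S.erase i).card ≤ ∑ k ∈ S.erase i, d k := by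
    have h3 : ∑ k ∈ S.erase i, 1 ≤ ∑ k ∈ S.erase i, d k :=
      Finset.sum_le_sum fun k hk => hd1 k (Finset.mem_of_mem_erase hk)
    simpa using h3
  have hdi := hd1 i hi
  rcases Nat.lt_or_ge (S.erase i).card 1 with hc | hc
  · right
    intro k
    have h0 : S.erase i = ∅ := Finset.card_eq_zero.mp (by omega)
    by_cases hk : k ∈ S
    · by_cases hki : k = i
      · rw [hki, hi2]
      · have : k ∈ S.erase i := Finset.mem_erase.mpr ⟨hki, hk⟩
        rw [h0] at this
        simp at this
    · rw [hSmem k hk, smul_zero]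
  · rcases Nat.lt_or_ge (S.erase i).card 2 with hc' | hc'
    · right
      obtain ⟨j, hj⟩ := Finset.card_eq_one.mp (by omega : (S.erase i).card = 1)
      rw [hj, Finset.sum_singleton] at e1 e2
      have hjS : j ∈ S := Finset.mem_of_mem_erase (by rw [hj]; exact Finset.mem_singleton_self _)
      have hdj := hd1 j hjS
      have h2j : 2 • a j = 0 := by
        apply hval'
        rw [← e2] at hsumS
        have h3 : d i = 1 ∧ d j = 2 ∨ d i = 2 ∧ d j = 1 := by omega
        rcases h3 with ⟨h3, h4⟩ | ⟨h3, h4⟩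
        · rw [h3, h4] at hsumS
          omega
        · rw [h3, h4] at hsumS
          omega
      intro k
      by_cases hk : k ∈ S
      · by_cases hki : k = i
        · rw [hki, hi2]
        · have : k ∈ S.erase i := Finset.mem_erase.mpr ⟨hki, hk⟩
          rw [hj, Finset.mem_singleton] at this
          rw [this, h2j]
      · rw [hSmem k hk, smul_zero]
    · left
      obtain ⟨j, l, hjl, hj⟩ := Finset.card_eq_two.mp (by omega : (S.erase i).card = 2)
      rw [hj, Finset.sum_pair hjl] at e1 e2
      have hjS' : j ∈ S.erase i := by rw [hj]; simp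
      have hlS' : l ∈ S.erase i := by rw [hj]; simp
      have hjS : j ∈ S := Finset.mem_of_mem_erase hjS'
      have hlS : l ∈ S := Finset.mem_of_mem_erase hlS'
      have hij : i ≠ j := (Finset.ne_of_mem_erase hjS').symm
      have hil : i ≠ l := (Finset.ne_of_mem_erase hlS').symm
      have hdj := hd1 j hjS
      have hdl := hd1 l hlS
      have hdi1 : d i = 1 := by omega
      have hdj1 : d j = 1 := by omega
      have hdl1 : d l = 1 := by omega
      rw [← e2] at hsumS
      simp only [hdi1, hdj1, hdl1, one_mul] at hsumS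
      obtain ⟨c, q₀, q₁, q₂, hfi⟩ := isSection_of (hf i) hdi1 (by have := hbd i hi; omega)
      obtain ⟨c', r₀, r₁, r₂, hfj⟩ := isSection_of (hf j) hdj1 (by have := hbd j hjS; omega)
      obtain ⟨c'', u₀, u₁, u₂, hfl⟩ := isSection_of (hf l) hdl1 (by have := hbd l hlS; omega)
      refine conic hij hil hjl ?_ rfl (by omega) hfi hfj hfl
      intro k hki hkj hkl
      have hk : k ∉ S := by
        intro hk
        have h3 : k ∈ S.erase i := Finset.mem_erase.mpr ⟨hki, hk⟩
        rw [hj] at h3
        simp [hkj, hkl] at h3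
      rw [hSmem k hk, ZMod.val_zero]

end exceptional

/-- a cyclic cover of a Hirzebruch surface `F_e`, `e ≥ 1`, with `H² (Y, O_Y) = 0` is dominated by a product
of curves, or it is a double cover of `F_2` branched along `σ` and a curve `∼ 3 σ + 6 φ` -/
theorem result {ι : Type} [Fintype ι] {e : ℕ} (he : 1 ≤ e) {f : ι → MvPolynomial (Fin 2) ℂ}
    {d b : ι → ℕ} (hf : ∀ i, IsHirzebruchCurve e (f i) (d i) (b i)) {n : ℕ} [NeZero n]
    {a : ι → ZMod n} (hb : ∑ i, b i • a i = 0)
    (hpg : ∀ k : ℤ, fibreDegree n d (fun i => k • a i) ≤ 1 ∨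
      lineDegree n b (fun i => k • a i) ≤ e + 1) :
    AffineDominatedByCurves n f a ∨ (e = 2 ∧ (∀ i, 2 • a i = 0) ∧ ∑ i, d i • a i ≠ 0 ∧
      ∑ i ∈ Finset.univ.filter (fun i => a i ≠ 0), d i = 3 ∧
      ∑ i ∈ Finset.univ.filter (fun i => a i ≠ 0), b i = 6) := by
  classical
  have h1 : fibreDegree n d a ≤ 1 ∨ lineDegree n b a ≤ e + 1 := by simpa using hpg 1
  have h2 : fibreDegree n d (fun i => -(a i)) ≤ 1 ∨
      lineDegree n b (fun i => -(a i)) ≤ e + 1 := by simpa using hpg (-1)
  set S : Finset ι := Finset.univ.filter (fun i => a i ≠ 0) with hS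
  set T : Finset (Option ι) := Finset.univ.filter (fun o => aO d a o ≠ 0) with hT
  have hle : ∀ i, e * d i ≤ b i := fun i => (hf i).le
  -- the sum over `T`
  have hTS : ∑ o ∈ T, dO d o = (if ∑ i, d i • a i ≠ 0 then 1 else 0) + ∑ i ∈ S, d i := by
    rw [hT, hS, Finset.sum_filter, Finset.sum_filter, Fintype.sum_option]
    simp [aO, dO]
  have hA := lineDegree_add_neg (dO d) (aO d a)
  rw [← fibreDegree_eq, ← aO_neg, ← fibreDegree_eq, ← hT] at hA
  have hB := lineDegree_add_neg b a
  rw [← hS] at hB
  by_cases hA3 : ∑ o ∈ T, dO d o ≤ 3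
  · -- at most three branch points in the fibres
    have key := fibre_three (ι := Option ι) (n := n) (f := fun o => o.elim 1 f) (d := dO d)
      (a := aO d a) (by
        intro o
        cases o with
        | none => simp [dO]
        | some i =>
          simp only [Option.elim_some, dO]
          rw [degreeOf_le_iff]
          exact (hf i).fst_le) (by
        rw [Fintype.sum_option]
        simp [dO, aO]) hA3
    obtain ⟨Ω, _, _, K₁, K₂, hK, x, hx, y, hy, z, hz, hind, hval⟩ := key
    left
    refine ⟨Ω, inferInstance, inferInstance, K₁, K₂, hK, x, hx, y, hy, z, hz, hind, ?_⟩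
    rw [hval, Fintype.prod_option]
    simp [aO]
  · have hA4 : (4 : ℚ) ≤ ((∑ o ∈ T, dO d o : ℕ) : ℚ) := by
      have : 4 ≤ ∑ o ∈ T, dO d o := by omega
      exact_mod_cast this
    have h2' : fibreDegree n d (fun i => -(-(a i))) ≤ 1 ∨
        lineDegree n b (fun i => -(-(a i))) ≤ e + 1 := by simpa using h1
    have hA' : 4 ≤ fibreDegree n d (fun i => -(a i)) + fibreDegree n d (fun i => -(-(a i))) := by
      have h3 : (fun i => -(-(a i))) = a := by
        funext i
        simp
      rw [h3]
      linarith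
    have hβ1 := no_big he hle h1 h2 (by linarith)
    have hβ2 := no_big he hle h2 h2' hA'
    have hBle : ∑ i ∈ S, b i ≤ 2 * (e + 1) := by
      have : ((∑ i ∈ S, b i : ℕ) : ℚ) ≤ 2 * (e + 1) := by
        rw [← hB]
        linarith
      exact_mod_cast this
    have hSb : e * ∑ i ∈ S, d i ≤ ∑ i ∈ S, b i := by
      rw [Finset.mul_sum]
      exact Finset.sum_le_sum fun i _ => hle i
    have hS3 : 3 ≤ ∑ i ∈ S, d i := by
      have h3 : ∑ o ∈ T, dO d o ≤ 1 + ∑ i ∈ S, d i := by
        rw [hTS]
        split_ifs <;> omega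
      omega
    by_cases he1 : e = 1
    · subst he1
      have hdom : DominatedByCurves n (fun i => homog (f i) (b i)) a :=
        dominated (fun i => isPlaneCurve_homog (hf i)) hb (by norm_num at hβ1; exact hβ1)
          (by norm_num at hβ2; exact hβ2)
      obtain ⟨Ω, _, _, K₁, K₂, hK, x, hx, y, hy, z, hz, hind, hval⟩ := hdom
      left
      refine ⟨Ω, inferInstance, inferInstance, K₁, K₂, hK, x, hx, y, hy, z, hz, hind, ?_⟩
      rw [hval]
      simp only [aeval_homog]
    · have h3e : e * 3 ≤ 2 * (e + 1) := le_trans (Nat.mul_le_mul_left e hS3) (le_trans hSb hBle)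
      have he2 : e = 2 := by omega
      subst he2
      have hSd : ∑ i ∈ S, d i = 3 := by omega
      have hSb6 : ∑ i ∈ S, b i = 6 := by omega
      have hσ : ∑ i, d i • a i ≠ 0 := by
        intro h0
        rw [if_neg (by simpa using h0)] at hTS
        omega
      norm_num at hβ1 hβ2
      have hpg' : ∀ k : ℤ, fibreDegree n d (fun i => k • a i) ≤ 1 ∨
          lineDegree n b (fun i => k • a i) ≤ 3 := by
        intro k
        have h23 : ((2 : ℕ) : ℚ) + 1 = 3 := by norm_num
        rw [← h23]
        exact hpg k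
      rcases exceptional hf hSd hSb6 hβ1 hβ2 hpg' with h | h
      · exact Or.inl h
      · exact Or.inr ⟨rfl, h, hσ, hSd, hSb6⟩

end Pool.Agent.Results.MP_7ebcb6_ag.HirzebruchCovers
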