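import Pool.Agent.U68.HX.Extra
import Pool.Agent.U68.BC.Geo

set_option autoImplicit false

/-!
# Bloch's problem for abelian covers of the toric del Pezzo surfaces

Let `f i`, `i ∈ ι`, be nonzero polynomials in two variables over `ℂ` and `c i` residues modulo `n`.  They define the
surface `z ^ n = ∏ i, f i (x, y) ^ c i`, a cyclic cover of the plane.  Let `S` be the plane `ℙ²` blown up in the three
torus-fixed points: the two points at infinity of the axes and the origin (`K_S ^ 2 = 6`; the boundary is a hexagon of six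
`(-1)`-curves).  The class of the strict transform of `f = 0` in `Pic S` is given by the four numbers

`deg_x f`, `deg_y f`, `deg f` and the multiplicity `mult0 f` of `f = 0` at the origin,

and the exponents of the exceptional curves and of the line at infinity are given by the condition that the divisor is
divisible by `n`; the axes may be among the `f i = 0`.  By Pardini `H⁰ (X, ω_X)` of the normal cover `X → S` (branched along
the curves `f i = 0` and the boundary) is the sum over the `k` modulo `n` of the spaces `H⁰ (S, K_S + L_k)`, where `L_k` has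
the numbers `α = ⌈∑ deg_x (f i) {k c_i / n}⌉`, `β = ⌈∑ deg_y (f i) {k c_i / n}⌉`, `δ = ⌈∑ deg (f i) {k c_i / n}⌉` and
`μ = ⌊∑ mult0 (f i) {k c_i / n}⌋` (if the `f i` are irreducible and different), and `H⁰ (S, K_S + L_k)` is the space of the
polynomials of `x`-degree `≤ α - 2`, `y`-degree `≤ β - 2`, degree `≤ δ - 3` and multiplicity `≥ μ - 1` at the origin.
So `H⁰ (X, ω_X) = 0` means that there is no `k` with a monomial of this kind (`HasAdjoint α β δ μ`).

Theorem: in this case the surface `z ^ n = ∏ i, f i (x, y) ^ c i` is dominated by a product of two curves.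

This contains the covers of all smooth toric del Pezzo surfaces: `ℙ²`, `ℙ¹ × ℙ¹`, `ℙ²` blown up in one, two or three
points, with arbitrary branch curves and arbitrary `n`.  It applies to the surfaces `X / ker χ` for the characters `χ` of an
abelian cover `X` of `S` with `H⁰ (X, ω_X) = 0`; since for surfaces with `p_g = 0` which are dominated by products of
curves the group `B(X)` is finite-dimensional, this answers the problem of Bloch for the abelian covers of `S` (the
geometric facts of this paragraph are known and not formalised here).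

Proof.  A polygon of `S` without interior lattice points has width at most one with respect to one of three pencils
(lines `y = const`, `x = const`, `y = t * x`), or it is contained in one of the two triangles of the conics.  So for each
`k` one of five alternatives holds (`alt_of_not`).  The main point is a statement on residues, `Pool.Agent.U68.HX.numeric`:
if one of the five alternatives holds for each `k`, then the members of one of the three pencils have at most three
branch points, or one of the two triangles serves for `k = 1` and `k = -1`.  Writing the curves as sums of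
the five generators of the nef cone one is led to two minimal configurations, which have to be excluded:

* nine residues `a i - b j`, `i, j < 3` (`Pool.Agent.U68.HX.nine`).  For each unit `k` the six points `k a i / n`,
  `k b j / n` of the circle interlace, so that their energy with respect to the kernel `t (1 - t)` is at most `1 / 4`; the mean
  value of the energy over the units is given by the function `χ (d) = ∏_{p ∣ d} (-p) / d²`, and the sum of the fifteen values
  shows that it is larger than `1 / 4`;
* eight residues, two conics and six boundary curves (`Pool.Agent.U68.HX.eight`), excluded by a descent on the orders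
  of the residues and the faces of a cube of relations.

In the cases of three branch points the surface is dominated by a product by `Pool.Agent.N197.Pln.fibre_three`
(for the third pencil after the substitution `(x, y) ↦ (x, x y)`); in the cases of the triangles it is a cover of `ℙ²` with
`p_g = 0` (for the second triangle after the Cremona transformation `(x, y) ↦ (1 / x, 1 / y)`), and
`Pool.Agent.N197.Pln.dominated` applies.
-/

namespace Pool.Agent.Results.MP_7ebcb6_ag.ToricDelPezzoCovers

open Pool.Agent.N197.Pln Pool.Agent.U15.DP Pool.Agent.U68.HX Pool.Agent.U68.BC MvPolynomial Finset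

/-- the multiplicity of the curve `f = 0` at the origin: the least degree of a monomial of `f` -/
noncomputable def mult0 (f : MvPolynomial (Fin 2) ℂ) : ℕ :=
  sInf ((fun m : Fin 2 →₀ ℕ => m 0 + m 1) '' (f.support : Set (Fin 2 →₀ ℕ)))

/-- there is a monomial `x ^ i * y ^ j` with `i ≤ α - 2`, `j ≤ β - 2`, `μ - 1 ≤ i + j ≤ δ - 3` -/
def HasAdjoint (α β δ μ : ℤ) : Prop :=
  ∃ i j : ℕ, (i : ℤ) + 2 ≤ α ∧ (j : ℤ) + 2 ≤ β ∧ (i : ℤ) + j + 3 ≤ δ ∧ μ ≤ i + j + 1

theorem alt_of_not {α β δ μ : ℤ} (h : ¬ HasAdjoint α β δ μ) :
    α ≤ 1 ∨ β ≤ 1 ∨ δ - μ ≤ 1 ∨ δ ≤ 2 ∨ α + β - μ ≤ 2 := by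
  by_contra hcon
  push Not at hcon
  obtain ⟨h1, h2, h3, h4, h5⟩ := hcon
  apply h
  -- the degree of the monomial is `t`
  set t : ℕ := (μ - 1).toNat with ht
  have ht1 : μ - 1 ≤ t := Int.self_le_toNat _
  have ht2 : (t : ℤ) ≤ δ - 3 := by omega
  have ht3 : (t : ℤ) ≤ α + β - 4 := by omega
  rcases le_total ((t : ℤ)) (α - 2) with h6 | h6
  · exact ⟨t, 0, by omega, by push_cast; omega, by push_cast; omega, by push_cast; omega⟩
  · refine ⟨(α - 2).toNat, t - (α - 2).toNat, ?_, ?_, ?_, ?_⟩ <;> omega

/-- Let `f i ≠ 0` be polynomials in two variables and `c i` residues modulo `n`.  Suppose that there are no integer `k`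
and no monomial `x ^ i * y ^ j` with `i ≤ α - 2`, `j ≤ β - 2`, `μ - 1 ≤ i + j ≤ δ - 3`, where `α`, `β` and `δ` are
the sums of the `deg_x (f i) * {k c i / n}`, `deg_y (f i) * {k c i / n}` and `deg (f i) * {k c i / n}`, rounded up,
and `μ` is the sum of the `mult0 (f i) * {k c i / n}`, rounded down.
Then the surface `z ^ n = ∏ i, f i (x, y) ^ c i` is dominated by a product of two curves. -/
theorem result {ι : Type} [Fintype ι] {f : ι → MvPolynomial (Fin 2) ℂ} (hf : ∀ i, f i ≠ 0)
    {n : ℕ} [NeZero n] {c : ι → ZMod n}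
    (hpg : ∀ k : ℤ, ¬ HasAdjoint
      ⌈lineDegree n (fun i => (f i).degreeOf 0) (fun i => k • c i)⌉
      ⌈lineDegree n (fun i => (f i).degreeOf 1) (fun i => k • c i)⌉
      ⌈lineDegree n (fun i => (f i).totalDegree) (fun i => k • c i)⌉
      ⌊lineDegree n (fun i => mult0 (f i)) (fun i => k • c i)⌋) :
    AffineDominatedByCurves n f c := by
  classical
  -- the numbers
  set X : ι → ℕ := fun i => (f i).degreeOf 0 with hX
  set Y : ι → ℕ := fun i => (f i).degreeOf 1 with hY
  set T : ι → ℕ := fun i => (f i).totalDegree with hT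
  set μ : ι → ℕ := fun i => lowest (fun m => m 0 + m 1) (f i) with hμ
  set a : ι → ℕ := fun i => lowest (fun m => m 0) (f i) with ha
  set b : ι → ℕ := fun i => lowest (fun m => m 1) (f i) with hb
  have ham : ∀ i, ∀ m ∈ (f i).support, a i ≤ m 0 := fun i m hm => lowest_le (fun m => m 0) hm
  have hbm : ∀ i, ∀ m ∈ (f i).support, b i ≤ m 1 := fun i m hm => lowest_le (fun m => m 1) hm
  have hμm : ∀ i, ∀ m ∈ (f i).support, μ i ≤ m 0 + m 1 :=
    fun i m hm => lowest_le (fun m => m 0 + m 1) hm
  have hXm : ∀ i, ∀ m ∈ (f i).support, m 0 ≤ X i := fun i m hm => le_degreeOf 0 hm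
  have hYm : ∀ i, ∀ m ∈ (f i).support, m 1 ≤ Y i := fun i m hm => le_degreeOf 1 hm
  have hTm : ∀ i, ∀ m ∈ (f i).support, m 0 + m 1 ≤ T i := fun i m hm => le_totalDegree' hm
  have key : ∀ i, a i ≤ X i ∧ b i ≤ Y i ∧ a i + b i ≤ μ i ∧ μ i ≤ T i ∧ X i + b i ≤ T i ∧
      Y i + a i ≤ T i ∧ μ i ≤ Y i + a i ∧ μ i ≤ X i + b i ∧ T i ≤ X i + Y i := by
    intro i
    obtain ⟨m₁, s₁, t₁⟩ := exists_degreeOf 0 (hf i)
    obtain ⟨m₂, s₂, t₂⟩ := exists_degreeOf 1 (hf i)
    obtain ⟨m₃, s₃, t₃⟩ := exists_lowest (fun m => m 0) (hf i)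
    obtain ⟨m₄, s₄, t₄⟩ := exists_lowest (fun m => m 1) (hf i)
    obtain ⟨m₅, s₅, t₅⟩ := exists_lowest (fun m => m 0 + m 1) (hf i)
    obtain ⟨m₆, s₆, t₆⟩ := exists_totalDegree (hf i)
    have e₁ : m₁ 0 = X i := t₁
    have e₂ : m₂ 1 = Y i := t₂
    have e₃ : m₃ 0 = a i := t₃
    have e₄ : m₄ 1 = b i := t₄
    have e₅ : m₅ 0 + m₅ 1 = μ i := t₅
    have e₆ : m₆ 0 + m₆ 1 = T i := t₆
    have := ham i m₁ s₁
    have := hbm i m₁ s₁
    have := hTm i m₁ s₁
    have := ham i m₂ s₂
    have := hbm i m₂ s₂
    have := hTm i m₂ s₂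
    have := hμm i m₃ s₃
    have := hYm i m₃ s₃
    have := hμm i m₄ s₄
    have := hXm i m₄ s₄
    have := ham i m₅ s₅
    have := hbm i m₅ s₅
    have := hTm i m₅ s₅
    have := hXm i m₆ s₆
    have := hYm i m₆ s₆
    refine ⟨?_, ?_, ?_, ?_, ?_, ?_, ?_, ?_, ?_⟩ <;> omega
  set p : Fin 3 → ι → ℕ := ![fun i => X i - a i, fun i => Y i - b i, fun i => T i - μ i] with hp
  set d : ι → ℕ := fun i => T i - (a i + b i) with hd
  set d' : ι → ℕ := fun i => X i + Y i - μ i with hd'
  set l : Fin 3 → ZMod n := ![∑ i, a i • c i, ∑ i, b i • c i, -∑ i, T i • c i] with hl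
  set e : Fin 3 → ZMod n := ![-∑ i, X i • c i, -∑ i, Y i • c i, ∑ i, μ i • c i] with he
  have nef : Nef p d d' := by
    refine ⟨?_, ?_, ?_⟩
    · intro j i
      obtain ⟨k1, k2, k3, k4, k5, k6, k7, k8, k9⟩ := key i
      fin_cases j
      · show X i - a i ≤ T i - (a i + b i)
        omega
      · show Y i - b i ≤ T i - (a i + b i)
        omega
      · show T i - μ i ≤ T i - (a i + b i)
        omega
    · intro j i
      obtain ⟨k1, k2, k3, k4, k5, k6, k7, k8, k9⟩ := key i
      fin_cases j
      · show X i - a i ≤ X i + Y i - μ i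
        omega
      · show Y i - b i ≤ X i + Y i - μ i
        omega
      · show T i - μ i ≤ X i + Y i - μ i
        omega
    · intro i
      obtain ⟨k1, k2, k3, k4, k5, k6, k7, k8, k9⟩ := key i
      show (X i - a i) + (Y i - b i) + (T i - μ i) = (T i - (a i + b i)) + (X i + Y i - μ i)
      omega
  have haX : ∀ i, a i ≤ X i := fun i => (key i).1
  have hbY : ∀ i, b i ≤ Y i := fun i => (key i).2.1
  have hμT : ∀ i, μ i ≤ T i := fun i => (key i).2.2.2.1
  have habT : ∀ i, a i + b i ≤ T i := fun i => by
    obtain ⟨k1, k2, k3, k4, k5, k6, k7, k8, k9⟩ := key i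
    omega
  have hμXY : ∀ i, μ i ≤ X i + Y i := fun i => by
    obtain ⟨k1, k2, k3, k4, k5, k6, k7, k8, k9⟩ := key i
    omega
  have r : ∀ j, ∑ i, p j i • c i + e j + l j = 0 := by
    intro j
    fin_cases j
    · show ∑ i, (X i - a i) • c i + -∑ i, X i • c i + ∑ i, a i • c i = 0
      rw [smul_sub' haX]
      ring
    · show ∑ i, (Y i - b i) • c i + -∑ i, Y i • c i + ∑ i, b i • c i = 0
      rw [smul_sub' hbY]
      ring
    · show ∑ i, (T i - μ i) • c i + ∑ i, μ i • c i + -∑ i, T i • c i = 0
      rw [smul_sub' hμT]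
      ring
  have rD : ∑ i, d i • c i + ∑ k, l k = 0 := by
    rw [Fin.sum_univ_three]
    show ∑ i, (T i - (a i + b i)) • c i +
      (∑ i, a i • c i + ∑ i, b i • c i + -∑ i, T i • c i) = 0
    rw [smul_sub' habT, smul_add']
    ring
  have H : ∀ m, AltN p d d' c e l m := by
    intro m
    have h1 := alt_of_not (hpg (m.val : ℤ))
    rw [lineDegree_eq, lineDegree_eq, lineDegree_eq, lineDegree_eq] at h1
    have h1' : ⌈L X c m⌉ ≤ 1 ∨ ⌈L Y c m⌉ ≤ 1 ∨ ⌈L T c m⌉ - ⌊L μ c m⌋ ≤ 1 ∨ ⌈L T c m⌉ ≤ 2 ∨
      ⌈L X c m⌉ + ⌈L Y c m⌉ - ⌊L μ c m⌋ ≤ 2 := h1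
    have fa := fr_le a c m (L_nonneg a c m)
    have fb := fr_le b c m (L_nonneg b c m)
    have fX := fr_ceil X c m
    have fY := fr_ceil Y c m
    have fT := fr_ceil T c m
    have fμ := fr_floor μ c m
    rcases h1' with h | h | h | h | h
    · left
      refine ⟨0, ?_⟩
      show L (fun i => X i - a i) c m + fr (m * -∑ i, X i • c i) + fr (m * ∑ i, a i • c i) ≤ 1
      have h2 : ((⌈L X c m⌉ : ℤ) : ℚ) ≤ 1 := by exact_mod_cast h
      rw [L_sub haX]
      linarith
    · left
      refine ⟨1, ?_⟩
      show L (fun i => Y i - b i) c m + fr (m * -∑ i, Y i • c i) + fr (m * ∑ i, b i • c i) ≤ 1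
      have h2 : ((⌈L Y c m⌉ : ℤ) : ℚ) ≤ 1 := by exact_mod_cast h
      rw [L_sub hbY]
      linarith
    · left
      refine ⟨2, ?_⟩
      show L (fun i => T i - μ i) c m + fr (m * ∑ i, μ i • c i) + fr (m * -∑ i, T i • c i) ≤ 1
      have h2 : ((⌈L T c m⌉ - ⌊L μ c m⌋ : ℤ) : ℚ) ≤ 1 := by exact_mod_cast h
      push_cast at h2
      rw [L_sub hμT]
      linarith
    · right; left
      rw [Fin.sum_univ_three]
      show L (fun i => T i - (a i + b i)) c m +
        (fr (m * ∑ i, a i • c i) + fr (m * ∑ i, b i • c i) + fr (m * -∑ i, T i • c i)) ≤ 2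
      have h2 : ((⌈L T c m⌉ : ℤ) : ℚ) ≤ 2 := by exact_mod_cast h
      rw [L_sub habT, L_add]
      linarith
    · right; right
      rw [Fin.sum_univ_three]
      show L (fun i => X i + Y i - μ i) c m +
        (fr (m * -∑ i, X i • c i) + fr (m * -∑ i, Y i • c i) + fr (m * ∑ i, μ i • c i)) ≤ 2
      have h2 : ((⌈L X c m⌉ + ⌈L Y c m⌉ - ⌊L μ c m⌋ : ℤ) : ℚ) ≤ 2 := by exact_mod_cast h
      push_cast at h2
      rw [L_sub hμXY, L_add]
      linarith
  have castsum : ∀ w : ι → ℕ, ∑ i, (((w i : ℕ) : ℤ) : ZMod n) * c i = ∑ i, w i • c i := by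
    intro w
    apply Finset.sum_congr rfl
    intro i _
    push_cast
    rw [nsmul_eq_mul]
  have castneg : ∀ w : ι → ℕ, ∑ i, ((-((w i : ℕ) : ℤ) : ℤ) : ZMod n) * c i = -∑ i, w i • c i := by
    intro w
    rw [← Finset.sum_neg_distrib]
    apply Finset.sum_congr rfl
    intro i _
    push_cast
    rw [nsmul_eq_mul, neg_mul]
  -- the three changes of coordinates
  have t1 := transfer (f := f) (c := c) (n := n) (u := fun i m => m 0 - a i)
    (v := fun i m => m 1 - b i) (α := 1) (γ := 0) (δ := 1) (a := fun i => (a i : ℤ))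
    (b := fun i => (b i : ℤ)) (r := l 0) (s := l 1) (Or.inl rfl) (Or.inl rfl)
    (by
      intro i m hm
      have := ham i m hm
      push_cast [this]
      ring)
    (by
      intro i m hm
      have := hbm i m hm
      push_cast [this]
      ring) (castsum a) (castsum b)
  have t2 := transfer (f := f) (c := c) (n := n) (u := fun i m => m 0 + m 1 - μ i)
    (v := fun i m => m 1 - b i) (α := 1) (γ := 1) (δ := 1) (a := fun i => (μ i : ℤ))
    (b := fun i => (b i : ℤ)) (r := e 2) (s := l 1) (Or.inl rfl) (Or.inl rfl)
    (by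
      intro i m hm
      have := hμm i m hm
      push_cast [this]
      ring)
    (by
      intro i m hm
      have := hbm i m hm
      push_cast [this]
      ring) (castsum μ) (castsum b)
  have t3 := transfer (f := f) (c := c) (n := n) (u := fun i m => X i - m 0)
    (v := fun i m => Y i - m 1) (α := -1) (γ := 0) (δ := -1) (a := fun i => -(X i : ℤ))
    (b := fun i => -(Y i : ℤ)) (r := e 0) (s := e 1) (Or.inr rfl) (Or.inr rfl)
    (by
      intro i m hm
      have := hXm i m hm
      push_cast [this]
      ring)
    (by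
      intro i m hm
      have := hYm i m hm
      push_cast [this]
      ring) (castneg X) (castneg Y)
  have dX00 : (MvPolynomial.X 0 : MvPolynomial (Fin 2) ℂ).degreeOf 0 = 1 := by
    rw [degreeOf_X]
    simp
  have dX10 : (MvPolynomial.X 1 : MvPolynomial (Fin 2) ℂ).degreeOf 0 = 0 := by
    rw [degreeOf_X]
    simp
  have dX01 : (MvPolynomial.X 0 : MvPolynomial (Fin 2) ℂ).degreeOf 1 = 0 := by
    rw [degreeOf_X]
    simp
  have dX11 : (MvPolynomial.X 1 : MvPolynomial (Fin 2) ℂ).degreeOf 1 = 1 := by
    rw [degreeOf_X]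
    simp
  have Lle : ∀ {G : ι → MvPolynomial (Fin 2) ℂ} {w : ι → ℕ} {r s m : ZMod n},
      (∀ i, (G i).totalDegree ≤ w i) → L (fun o => (ex (MvPolynomial.X 0) (MvPolynomial.X 1) G o).totalDegree)
        (ex r s c) m ≤ L w c m + fr (m * r) + fr (m * s) := by
    intro G w r s m hG
    rw [← L_ex]
    apply L_mono
    intro o
    rcases o with _ | _ | i
    · show (MvPolynomial.X 0 : MvPolynomial (Fin 2) ℂ).totalDegree ≤ 1
      rw [totalDegree_X]
    · show (MvPolynomial.X 1 : MvPolynomial (Fin 2) ℂ).totalDegree ≤ 1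
      rw [totalDegree_X]
    · exact hG i
  have exne : ∀ {G : ι → MvPolynomial (Fin 2) ℂ}, (∀ i, G i ≠ 0) →
      ∀ o, ex (MvPolynomial.X 0) (MvPolynomial.X 1) G o ≠ 0 := by
    intro G hG o
    rcases o with _ | _ | i
    · exact X_ne_zero _
    · exact X_ne_zero _
    · exact hG i
  rcases numeric nef r rD H with ⟨j, hj⟩ | ⟨h1, h2⟩ | ⟨h1, h2⟩
  · have hj' : j = 0 ∨ j = 1 ∨ j = 2 := by omega
    rcases hj' with rfl | rfl | rfl
    · -- the lines `y = const`
      apply t1
      refine case_fibre (d := ex 1 0 (p 0)) ?_ ?_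
      · rintro (_ | _ | i)
        · exact dX00.le
        · exact dX10.le
        · apply degreeOf_tor_le
          intro m hm
          exact Nat.sub_le_sub_right (hXm i m hm) _
      · rw [brn_ex _ _ (Or.inl ⟨rfl, rfl⟩), one_smul, zero_smul, add_zero]
        have h3 : -(∑ i, p 0 i • c i + l 0) = e 0 := by linear_combination -(r 0)
        rw [h3]
        exact hj
    · -- the lines `x = const`
      apply t1
      apply AffineDominatedByCurves.swap
      refine case_fibre (d := ex 0 1 (p 1)) ?_ ?_
      · intro o
        have h1 := degreeOf_rename_of_injective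
          (p := ex (MvPolynomial.X 0) (MvPolynomial.X 1)
            (fun i => tor (fun m => m 0 - a i) (fun m => m 1 - b i) (f i)) o)
          (Equiv.swap (0 : Fin 2) 1).injective 1
        rw [Equiv.swap_apply_right] at h1
        rw [h1]
        rcases o with _ | _ | i
        · exact dX01.le
        · exact dX11.le
        · apply degreeOf_tor_le'
          intro m hm
          exact Nat.sub_le_sub_right (hYm i m hm) _
      · rw [brn_ex _ _ (Or.inr ⟨rfl, rfl⟩), one_smul, zero_smul, zero_add]
        have h3 : -(∑ i, p 1 i • c i + l 1) = e 1 := by linear_combination -(r 1)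
        rw [h3]
        exact hj
    · -- the lines `y = t * x`
      apply t2
      refine case_fibre (d := ex 1 0 (p 2)) ?_ ?_
      · rintro (_ | _ | i)
        · exact dX00.le
        · exact dX10.le
        · apply degreeOf_tor_le
          intro m hm
          exact Nat.sub_le_sub_right (hTm i m hm) _
      · rw [brn_ex _ _ (Or.inl ⟨rfl, rfl⟩), one_smul, zero_smul, add_zero]
        have h3 : -(∑ i, p 2 i • c i + e 2) = l 2 := by linear_combination -(r 2)
        rw [h3]
        omega
  · -- a cover of the plane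
    apply t1
    refine case_plane (exne ?_) ?_ ?_
    · intro i
      refine ne_zero_tor (hf i) (α := 1) (γ := 0) (δ := 1) (a := (a i : ℤ)) (b := (b i : ℤ))
        (Or.inl rfl) (Or.inl rfl) ?_ ?_
      · intro m hm
        have := ham i m hm
        push_cast [this]
        ring
      · intro m hm
        have := hbm i m hm
        push_cast [this]
        ring
    · refine (Lle (w := d) ?_).trans ?_
      · intro i
        apply totalDegree_tor_le
        intro m hm
        have h3 := ham i m hm
        have h4 := hbm i m hm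
        have h5 := hTm i m hm
        show m 0 - a i + (m 1 - b i) ≤ T i - (a i + b i)
        omega
      · rw [Fin.sum_univ_three] at h1
        have := fr_nonneg (1 * l 2)
        linarith
    · refine (Lle (w := d) ?_).trans ?_
      · intro i
        apply totalDegree_tor_le
        intro m hm
        have h3 := ham i m hm
        have h4 := hbm i m hm
        have h5 := hTm i m hm
        show m 0 - a i + (m 1 - b i) ≤ T i - (a i + b i)
        omega
      · rw [Fin.sum_univ_three] at h2
        have := fr_nonneg (-1 * l 2)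
        linarith
  · -- a cover of the other plane
    apply t3
    refine case_plane (exne ?_) ?_ ?_
    · intro i
      refine ne_zero_tor (hf i) (α := -1) (γ := 0) (δ := -1) (a := -(X i : ℤ)) (b := -(Y i : ℤ))
        (Or.inr rfl) (Or.inr rfl) ?_ ?_
      · intro m hm
        have := hXm i m hm
        push_cast [this]
        ring
      · intro m hm
        have := hYm i m hm
        push_cast [this]
        ring
    · refine (Lle (w := d') ?_).trans ?_
      · intro i
        apply totalDegree_tor_le
        intro m hm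
        have h3 := hXm i m hm
        have h4 := hYm i m hm
        have h5 := hμm i m hm
        show X i - m 0 + (Y i - m 1) ≤ X i + Y i - μ i
        omega
      · rw [Fin.sum_univ_three] at h1
        have := fr_nonneg (1 * e 2)
        linarith
    · refine (Lle (w := d') ?_).trans ?_
      · intro i
        apply totalDegree_tor_le
        intro m hm
        have h3 := hXm i m hm
        have h4 := hYm i m hm
        have h5 := hμm i m hm
        show X i - m 0 + (Y i - m 1) ≤ X i + Y i - μ i
        omega
      · rw [Fin.sum_univ_three] at h2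
        have := fr_nonneg (-1 * e 2)
        linarith

end Pool.Agent.Results.MP_7ebcb6_ag.ToricDelPezzoCovers
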